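import Pool.Agent.H34.OPM.Exs
import Pool.Agent.H12.OP.TDefs

set_option autoImplicit false
set_option linter.unusedSectionVars false

/-!
# The concrete double complex and the Fock space

`cmpI` : `bik en` is the bicomplex attached to `SK`, `AK` of the monomial basis and the variable
`X 0` (structure `Cmp` of H12/OP/TDefs).
-/

open MvPolynomial

namespace Pool.Agent.H34.OPM

open Pool.Agent.H27.OP Pool.Agent.H80.OP Pool.Agent.H20.OPF

section poly

variable {r : ℕ}

lemma pderiv_inc_succ (y : Fin r) (g : MvPolynomial (Fin r) ℂ) :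
    pderiv y.succ (inc r g) = inc r (pderiv y g) :=
  pderiv_rename (Fin.succ_injective r) y g

lemma pderiv_inc_zero (g : MvPolynomial (Fin r) ℂ) : pderiv 0 (inc r g) = 0 := by
  induction g using MvPolynomial.induction_on with
  | C a =>
    unfold inc
    rw [rename_C, pderiv_C]
  | add p q hp hq => rw [map_add, map_add, hp, hq, add_zero]
  | mul_X p i hp =>
    have h : inc r (X i) = X i.succ := rename_X _ _
    rw [map_mul, h, Derivation.leibniz, hp, pderiv_X_of_ne (Fin.succ_ne_zero i), smul_zero,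
      smul_zero, add_zero]

lemma pderiv_X0_mul {x : Fin (r + 1)} (hx : x ≠ 0) (g : MvPolynomial (Fin (r + 1)) ℂ) :
    pderiv x (X 0 * g) = X 0 * pderiv x g := by
  rw [Derivation.leibniz, pderiv_X_of_ne hx.symm, smul_zero, add_zero, smul_eq_mul]

lemma rhx_pderiv {x : Fin (r + 1)} (hx : x ≠ 0) (f : MvPolynomial (Fin (r + 1)) ℂ) :
    rhx 0 (pderiv x f) = pderiv x (rhx 0 f) := by
  obtain ⟨y, rfl⟩ := Fin.exists_succ_eq.mpr hx
  have h1 : f = rhx 0 f + X 0 * dvx 0 f := by rw [rhx_apply, sub_add_cancel]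
  have h2 : pderiv y.succ f = pderiv y.succ (rhx 0 f) + X 0 * pderiv y.succ (dvx 0 f) := by
    conv_lhs => rw [h1]
    rw [map_add, pderiv_X0_mul hx]
  rw [h2, map_add, rhx_X, add_zero]
  have h3 : pderiv y.succ (rhx 0 f) = inc r (pderiv y (pi0 r f)) := by
    rw [← inc_pi0, pderiv_inc_succ]
  rw [h3, rhx_inc]

lemma pderiv_rhx (f : MvPolynomial (Fin (r + 1)) ℂ) : pderiv 0 (rhx 0 f) = 0 := by
  rw [← inc_pi0, pderiv_inc_zero]

lemma rhx_of_pderiv {f : MvPolynomial (Fin (r + 1)) ℂ} (h : pderiv 0 f = 0) : rhx 0 f = f := by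
  have h1 : dvx (0 : Fin (r + 1)) f = 0 := by
    refine MvPolynomial.ext _ _ fun ν => ?_
    rw [coeff_dvx, coeff_zero]
    have h2 := congrArg (coeff ν) h
    rw [coeff_zero] at h2
    rw [coeff_pderiv] at h2
    have h3 : ((ν 0 : ℂ) + 1) ≠ 0 := by exact_mod_cast Nat.succ_ne_zero (ν 0)
    rw [add_comm (Finsupp.single 0 1) ν]
    exact (mul_eq_zero.mp h2).resolve_right h3
  rw [rhx_apply, h1, mul_zero, sub_zero]

end poly

section

variable {r N e : ℕ} (en : Fin N → (Fin (r + 1) →₀ ℕ)) (hdeg : ∀ i, (en i).degree = e + 1)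
  (hin : Function.Injective en) (him : ∀ μ, μ ∈ Mo (Fin (r + 1)) (e + 1) ↔ ∃ i, en i = μ)

lemma sum_fil (p : (Fin (r + 1) →₀ ℕ) → Prop) [DecidablePred p]
    (g : (Fin (r + 1) →₀ ℕ) → Module.End ℂ (Finset (Fin N) → MvPolynomial (Fin (r + 1)) ℂ))
    (hin : Function.Injective en) (him : ∀ μ, μ ∈ Mo (Fin (r + 1)) (e + 1) ↔ ∃ i, en i = μ)
    (ω : Finset (Fin N) → MvPolynomial (Fin (r + 1)) ℂ) (I : Finset (Fin N)) :
    (∑ μ ∈ (Mo (Fin (r + 1)) (e + 1)).filter p, g μ) ω I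
      = ∑ i, if p (en i) then g (en i) ω I else 0 := by
  rw [Finset.sum_filter, sum_Mo en hin him, LinearMap.sum_apply, Finset.sum_apply]
  refine Finset.sum_congr rfl fun i _ => ?_
  split_ifs
  · rfl
  · rfl

lemma dS_mbs (ω : Finset (Fin N) → MvPolynomial (Fin (r + 1)) ℂ) :
    kd (pS en) ω = dS (SK (mbs (k := ℂ) en hin him)) 0 ω := by
  funext I
  unfold dS
  rw [sum_fil en _ _ hin him, kd_apply]
  refine Finset.sum_congr rfl fun i _ => ?_
  unfold pS
  split_ifs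
  · rw [Module.End.mul_apply, SK_m, mbs_J]
  · rw [zero_mul]

lemma dA_mbs (ω : Finset (Fin N) → MvPolynomial (Fin (r + 1)) ℂ) :
    kd (pA en) ω = dA (SK (mbs (k := ℂ) en hin him)) 0 ω := by
  funext I
  unfold dA
  rw [sum_fil en _ _ hin him, kd_apply]
  refine Finset.sum_congr rfl fun i _ => ?_
  unfold pA
  by_cases h : en i 0 = 0
  · rw [if_pos h, if_neg (by omega), zero_mul]
  · rw [if_neg h, if_pos (by omega), Module.End.mul_apply, SK_m, mbs_J]

lemma N0_mbs (ω : Finset (Fin N) → MvPolynomial (Fin (r + 1)) ℂ) (I : Finset (Fin N)) :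
    N0 (SK (mbs (k := ℂ) en hin him)) 0 ω I = (cS en I : ℂ) • ω I := by
  unfold N0
  rw [sum_fil en _ _ hin him]
  have h : ∀ i ∈ (Finset.univ : Finset (Fin N)), (if en i 0 = 0 then
      ((SK (mbs (k := ℂ) en hin him)).E (en i) * (SK (mbs (k := ℂ) en hin him)).J (en i)) ω I else 0)
      = if i ∈ I.filter (fun i => en i 0 = 0) then ω I else 0 := by
    intro i _
    rw [Module.End.mul_apply, mbs_E, mbs_J, aEJs_apply]
    by_cases h1 : en i 0 = 0
    · by_cases h2 : i ∈ I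
      · rw [if_pos h1, if_pos h2, if_pos (Finset.mem_filter.mpr ⟨h2, h1⟩)]
      · rw [if_pos h1, if_neg h2, if_neg fun h' => h2 (Finset.mem_filter.mp h').1]
    · rw [if_neg h1, if_neg (fun h' : i ∈ I.filter (fun i => en i 0 = 0) =>
        h1 (Finset.mem_filter.mp h').2)]
  rw [Finset.sum_congr rfl h, Finset.sum_ite_mem, Finset.univ_inter, Finset.sum_const,
    Nat.cast_smul_eq_nsmul]
  rfl

lemma G_mbs {a b m : ℕ} {ω : Finset (Fin N) → MvPolynomial (Fin (r + 1)) ℂ} :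
    ω ∈ SP ℂ (Fin (r + 1)) (QQ en a b) m ↔ ω ∈ GK (Fin (r + 1)) ℂ N (a + b) m ∧
      N0 (SK (mbs (k := ℂ) en hin him)) 0 ω = (a : ℂ) • ω := by
  constructor
  · intro h
    refine ⟨fun I => ⟨(h I).1, fun hI => (h I).2 fun h' => hI ?_⟩, ?_⟩
    · rw [← card_cS_cA en, h'.1, h'.2]
    · funext I
      rw [N0_mbs, Pi.smul_apply]
      by_cases h0 : cS en I = a
      · rw [h0]
      · rw [(h I).2 fun h' => h0 h'.1, smul_zero, smul_zero]
  · rintro ⟨h1, h2⟩ I
    refine ⟨(h1 I).1, fun hI => ?_⟩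
    by_contra h0
    have h3 := congrFun h2 I
    rw [N0_mbs, Pi.smul_apply] at h3
    have h4 : ((cS en I : ℂ) - (a : ℂ)) • ω I = 0 := by rw [sub_smul, h3, sub_self]
    have h5 := (smul_eq_zero.mp h4).resolve_right h0
    have h6 : cS en I = a := by exact_mod_cast sub_eq_zero.mp h5
    have h7 : I.card = a + b := by
      by_contra h'
      exact h0 ((h1 I).2 h')
    have h8 := card_cS_cA en I
    exact hI ⟨h6, by omega⟩

lemma J_mbs {Q : Finset (Fin N) → Prop} {m : ℕ} (i : Fin N)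
    (h : ∀ I, i ∉ I → ¬ Q (insert i I)) {ω : Finset (Fin N) → MvPolynomial (Fin (r + 1)) ℂ}
    (hω : ω ∈ SP ℂ (Fin (r + 1)) Q m) :
    (SK (mbs (k := ℂ) en hin him)).J (en i) ω = 0 := by
  rw [mbs_J]
  funext I
  rw [aJ_apply]
  split_ifs with hi
  · rfl
  · rw [(hω _).2 (h I hi), smul_zero]
    rfl

theorem cmpI : Pool.Agent.H12.OP.Cmp (SK (mbs (k := ℂ) en hin him)) (AK (mbs (k := ℂ) en hin him))
    (0 : Fin (r + 1)) (bik en hdeg) where
  dS_eq ω := dS_mbs en hin him ω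
  dA_eq ω := dA_mbs en hin him ω
  c_eq ω := rfl
  rho_eq ω := rfl
  G_iff := G_mbs en hin him
  rho_E μ ω := by
    rw [SK_E, SK_E, map_sum]
    refine Finset.sum_congr rfl fun i _ => ?_
    rw [map_smul]
    congr 1
    exact LinearMap.congr_fun (lm_aE (rhx (0 : Fin (r + 1))) i) ω
  rho_T x hx ω := by
    funext I
    show rhx 0 (pderiv x (ω I)) = pderiv x (rhx 0 (ω I))
    exact rhx_pderiv hx _
  T_rho ω := by
    funext I
    show pderiv 0 (rhx 0 (ω I)) = 0
    exact pderiv_rhx _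
  rho_of_T ω h := by
    funext I
    exact rhx_of_pderiv (congrFun h I)
  J_S {b m ω} hω μ hμ h := by
    obtain ⟨i, rfl⟩ := (him μ).mp hμ
    refine J_mbs en hin him i ?_ hω
    rintro I hi ⟨h1, _⟩
    rw [cS_insert en hi h] at h1
    omega
  J_A {a m ω} hω μ hμ h := by
    obtain ⟨i, rfl⟩ := (him μ).mp hμ
    refine J_mbs en hin him i ?_ hω
    rintro I hi ⟨_, h1⟩
    rw [cA_insert en hi (by omega)] at h1
    omega

end

end Pool.Agent.H34.OPM
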