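import Pool.Agent.H34.OPM.Quo

set_option autoImplicit false
set_option linter.unusedSectionVars false

/-!
# The exactness hypotheses of the recursion in the concrete double complex

`exA`, `exS`, `exR` : helper80's `ExA`, `ExS`, `ExR` for `bik` from `Exact (r + 1) e`,
`Exact r (e + 1)` and `Exact r e`.
-/

open MvPolynomial

namespace Pool.Agent.H34.OPM

open Pool.Agent.H27.OP Pool.Agent.H80.OP Pool.Agent.H20.OPF

section

variable {r N e : ℕ} (en : Fin N → (Fin (r + 1) →₀ ℕ)) (hdeg : ∀ i, (en i).degree = e + 1)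

lemma cS_filter (T : Finset (Fin N)) (h : ∀ i, en i 0 = 0 → i ∉ T) (I : Finset (Fin N)) :
    cS en (I.filter fun i => i ∉ T) = cS en I := by
  unfold cS
  rw [Finset.filter_filter]
  congr 1
  refine Finset.filter_congr fun i _ => ?_
  exact ⟨fun h' => h'.2, fun h' => ⟨h i h', h'⟩⟩

lemma cA_filter (T : Finset (Fin N)) (h : ∀ i, ¬ en i 0 = 0 → i ∉ T) (I : Finset (Fin N)) :
    cA en (I.filter fun i => i ∉ T) = cA en I := by
  unfold cA
  rw [Finset.filter_filter]
  congr 1
  refine Finset.filter_congr fun i _ => ?_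
  exact ⟨fun h' => h'.2, fun h' => ⟨h i h', h'⟩⟩

lemma cA_split (T : Finset (Fin N)) (h : ∀ i, i ∈ T → ¬ en i 0 = 0) (I : Finset (Fin N)) :
    (I.filter fun i => i ∈ T).card + cA en (I.filter fun i => i ∉ T) = cA en I := by
  unfold cA
  rw [Finset.filter_filter, ← Finset.card_filter_add_card_filter_not
    (s := I.filter fun i => ¬ en i 0 = 0) (p := fun i => i ∈ T), Finset.filter_filter,
    Finset.filter_filter]
  congr 1
  · congr 1
    refine Finset.filter_congr fun i _ => ?_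
    exact ⟨fun h' => ⟨h i h', h'⟩, fun h' => h'.2⟩
  · congr 1
    refine Finset.filter_congr fun i _ => ?_
    exact ⟨fun h' => ⟨h'.2, h'.1⟩, fun h' => ⟨h'.2, h'.1⟩⟩

lemma sub_single {μ : Fin (r + 1) →₀ ℕ} (h : ¬ μ 0 = 0) :
    μ - Finsupp.single 0 1 + Finsupp.single 0 1 = μ := by
  ext y
  by_cases hy : y = 0
  · subst hy
    simp only [Finsupp.coe_add, Finsupp.coe_tsub, Pi.add_apply, Pi.sub_apply,
      Finsupp.single_eq_same]
    omega
  · simp [Finsupp.single_eq_of_ne hy]

lemma add_single_ne (μ : Fin (r + 1) →₀ ℕ) :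
    ¬ (μ + Finsupp.single 0 1 : Fin (r + 1) →₀ ℕ) 0 = 0 := by
  rw [Finsupp.add_apply, Finsupp.single_eq_same]
  omega

lemma deg_add_single (μ : Fin (r + 1) →₀ ℕ) : (μ + Finsupp.single 0 1).degree = μ.degree + 1 := by
  rw [map_add, Finsupp.degree_single]

theorem exA (hin : Function.Injective en)
    (him : ∀ μ, μ ∈ Mo (Fin (r + 1)) (e + 1) ↔ ∃ i, en i = μ) {a b m : ℕ} (hm : e ≤ m)
    (h : Exact (r + 1) e b m) : (bik en hdeg).ExA a b m := by
  classical
  intro x hx hz
  set T : Finset (Fin N) := Finset.univ.filter fun i => ¬ en i 0 = 0 with hT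
  have hmT : ∀ i, i ∈ T ↔ ¬ en i 0 = 0 := fun i => by rw [hT, Finset.mem_filter]; simp
  have hfilT : ∀ I : Finset (Fin N), (I.filter fun i => i ∈ T).card = cA en I := by
    intro I
    unfold cA
    congr 1
    exact Finset.filter_congr fun i _ => hmT i
  have hfilS : ∀ I : Finset (Fin N), cS en (I.filter fun i => i ∉ T) = cS en I :=
    cS_filter en T fun i hi h' => (hmT i).mp h' hi
  obtain ⟨w, hw, hwd⟩ := specT T (n := r + 1) (d' := e) (pA en)
    (fun i hi => by
      unfold pA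
      rw [if_pos]
      by_contra h'
      exact hi ((hmT i).mpr h'))
    (fun j => en (io T j) - Finsupp.single 0 1)
    (fun j j' hj => by
      have h1 := sub_single ((hmT _).mp (io_mem T j))
      have h2 := sub_single ((hmT _).mp (io_mem T j'))
      have h3 : en (io T j) = en (io T j') := by
        rw [← h1, ← h2]
        exact congrArg (· + Finsupp.single 0 1) hj
      exact (io_mono T).injective (hin h3))
    (fun μ => by
      constructor
      · intro hμ
        have h1 : μ + Finsupp.single 0 1 ∈ Mo (Fin (r + 1)) (e + 1) := by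
          rw [mem_Mo, deg_add_single, mem_Mo.mp hμ]
        obtain ⟨i, hi⟩ := (him _).mp h1
        have h2 : i ∈ T := (hmT i).mpr (by rw [hi]; exact add_single_ne μ)
        obtain ⟨j, hj⟩ := io_surj T h2
        refine ⟨j, ?_⟩
        rw [hj, hi, add_tsub_cancel_right]
      · rintro ⟨j, rfl⟩
        rw [mem_Mo]
        exact deg_sub (hdeg _) ((hmT _).mp (io_mem T j)))
    (fun j => by
      unfold pA
      rw [if_neg ((hmT _).mp (io_mem T j))])
    (fun _ => b) hm (fun A => cS en A = a) (fun _ _ => h) x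
    (fun I => by
      refine ⟨(hx I).1, fun h' => (hx I).2 fun h'' => h' ?_⟩
      rw [hfilT, hfilS]
      exact ⟨h''.2, h''.1⟩) hz
  refine ⟨w, fun I => ?_, hwd⟩
  have h1 := hw I
  rw [hfilT, hfilS] at h1
  exact ⟨h1.1, fun h' => h1.2 fun h'' => h' ⟨h''.2, h''.1⟩⟩

/-- transport to `X 0 = 0` -/
lemma kd_pi0 (ψ : Fin N → MvPolynomial (Fin (r + 1)) ℂ)
    (f : Finset (Fin N) → MvPolynomial (Fin (r + 1)) ℂ) :
    kd (fun i => pi0 r (ψ i)) (fun I => pi0 r (f I)) = fun I => pi0 r (kd ψ f I) :=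
  kd_map (pi0 r).toLinearMap ψ (fun i => pi0 r (ψ i)) (fun _ _ => map_mul (pi0 r) _ _) f

lemma kd_inc (ψ : Fin N → MvPolynomial (Fin r) ℂ)
    (f : Finset (Fin N) → MvPolynomial (Fin r) ℂ) :
    kd (fun i => inc r (ψ i)) (fun I => inc r (f I)) = fun I => inc r (kd ψ f I) :=
  kd_map (inc r).toLinearMap ψ (fun i => inc r (ψ i)) (fun _ _ => map_mul (inc r) _ _) f

lemma inc_pi0_pS (i : Fin N) : inc r (pi0 r (pS en i)) = pS en i := by
  unfold pS
  split_ifs with h
  · rw [pi0_mon h, ← mon_inc h]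
  · rw [map_zero, map_zero]

theorem exS (hin : Function.Injective en)
    (him : ∀ μ, μ ∈ Mo (Fin (r + 1)) (e + 1) ↔ ∃ i, en i = μ) {a b m : ℕ} (hm : e + 1 ≤ m)
    (h : Exact r (e + 1) a m) : (bik en hdeg).ExS a b m := by
  classical
  intro x hx hr hz
  set T : Finset (Fin N) := Finset.univ.filter fun i => en i 0 = 0 with hT
  have hmT : ∀ i, i ∈ T ↔ en i 0 = 0 := fun i => by rw [hT, Finset.mem_filter]; simp
  have hfilT : ∀ I : Finset (Fin N), (I.filter fun i => i ∈ T).card = cS en I := by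
    intro I
    unfold cS
    congr 1
    exact Finset.filter_congr fun i _ => hmT i
  have hfilS : ∀ I : Finset (Fin N), cA en (I.filter fun i => i ∉ T) = cA en I :=
    cA_filter en T fun i hi h' => hi ((hmT i).mp h')
  have hz' : kd (fun i => pi0 r (pS en i)) (fun I => pi0 r (x I)) = 0 := by
    rw [kd_pi0]
    funext I
    have h1 := congrFun hz I
    show pi0 r (kd (pS en) x I) = 0
    have h2 : kd (pS en) x I = 0 := h1
    rw [h2, map_zero]
  obtain ⟨w, hw, hwd⟩ := specT T (n := r) (d' := e + 1) (fun i => pi0 r (pS en i))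
    (fun i hi => by
      show pi0 r (pS en i) = 0
      unfold pS
      rw [if_neg fun h' => hi ((hmT i).mpr h'), map_zero])
    (fun j => tl (en (io T j)))
    (fun j j' hj => by
      have h1 := map_tl ((hmT _).mp (io_mem T j))
      have h2 := map_tl ((hmT _).mp (io_mem T j'))
      have h3 : en (io T j) = en (io T j') := by
        rw [← h1, ← h2]
        exact congrArg (Finsupp.mapDomain Fin.succ) hj
      exact (io_mono T).injective (hin h3))
    (fun μ => by
      constructor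
      · intro hμ
        have h1 : μ.mapDomain Fin.succ ∈ Mo (Fin (r + 1)) (e + 1) := by
          rw [mem_Mo, deg_map, mem_Mo.mp hμ]
        obtain ⟨i, hi⟩ := (him _).mp h1
        have h2 : i ∈ T := (hmT i).mpr (by rw [hi]; exact map_zero' μ)
        obtain ⟨j, hj⟩ := io_surj T h2
        refine ⟨j, ?_⟩
        rw [hj, hi, tl_map]
      · rintro ⟨j, rfl⟩
        rw [mem_Mo, deg_tl ((hmT _).mp (io_mem T j))]
        exact hdeg _)
    (fun j => by
      show pi0 r (pS en (io T j)) = _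
      unfold pS
      rw [if_pos ((hmT _).mp (io_mem T j)), pi0_mon ((hmT _).mp (io_mem T j))])
    (fun _ => a) hm (fun A => cA en A = b) (fun _ _ => h) (fun I => pi0 r (x I))
    (fun I => by
      refine ⟨hom_pi0 (hx I).1, fun h' => ?_⟩
      show pi0 r (x I) = 0
      rw [(hx I).2 fun h'' => h' ?_, map_zero]
      rw [hfilT, hfilS]
      exact ⟨h''.1, h''.2⟩) hz'
  refine ⟨fun I => inc r (w I), fun I => ?_, ?_, ?_⟩
  · have h1 := hw I
    rw [hfilT, hfilS] at h1
    refine ⟨hom_inc h1.1, fun h' => ?_⟩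
    show inc r (w I) = 0
    rw [h1.2 fun h'' => h' ⟨h''.1, h''.2⟩, map_zero]
  · funext I
    show rhx 0 (inc r (w I)) = inc r (w I)
    exact rhx_inc _
  · show kd (pS en) (fun I => inc r (w I)) = x
    have h1 : (fun i => inc r (pi0 r (pS en i))) = pS en := funext (inc_pi0_pS en)
    rw [← h1, kd_inc (fun i => pi0 r (pS en i)) w, hwd]
    funext I
    show inc r (pi0 r (x I)) = x I
    rw [inc_pi0]
    exact congrFun hr I

lemma pi0_pA (i : Fin N) : pi0 r (pA en i)
    = if en i 0 = 1 then monomial (tl (en i - Finsupp.single 0 1)) 1 else 0 := by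
  unfold pA
  by_cases h0 : en i 0 = 0
  · rw [if_pos h0, map_zero, if_neg (by rw [h0]; exact zero_ne_one)]
  · rw [if_neg h0]
    by_cases h1 : en i 0 = 1
    · rw [if_pos h1, pi0_mon]
      simp [h1]
    · rw [if_neg h1, pi0_mon']
      simp only [Finsupp.coe_tsub, Pi.sub_apply, Finsupp.single_eq_same]
      omega

lemma sub_one_zero {μ : Fin (r + 1) →₀ ℕ} (h : μ 0 = 1) :
    (μ - Finsupp.single 0 1 : Fin (r + 1) →₀ ℕ) 0 = 0 := by
  simp [h]

/-- the exactness modulo `X 0`, before the transport back -/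
lemma exR_aux (hdeg : ∀ i, (en i).degree = e + 1) (hin : Function.Injective en)
    (him : ∀ μ, μ ∈ Mo (Fin (r + 1)) (e + 1) ↔ ∃ i, en i = μ) {a b m : ℕ} (hm : e ≤ m)
    (h : ∀ b' ≤ b, Exact r e b' m) (f : Finset (Fin N) → MvPolynomial (Fin r) ℂ)
    (hf : f ∈ SP ℂ (Fin r) (QQ en a b) m) (hz : kd (fun i => pi0 r (pA en i)) f = 0) :
    ∃ w ∈ SP ℂ (Fin r) (QQ en a (b + 1)) (m - e), kd (fun i => pi0 r (pA en i)) w = f := by
  classical
  obtain ⟨T, hmT⟩ : ∃ T : Finset (Fin N), ∀ i, i ∈ T ↔ en i 0 = 1 :=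
    ⟨Finset.univ.filter fun i => en i 0 = 1, fun i => by rw [Finset.mem_filter]; simp⟩
  have hT1 : ∀ i ∈ T, ¬ en i 0 = 0 := by
    intro i hi
    rw [(hmT i).mp hi]
    exact one_ne_zero
  have hsplit : ∀ I : Finset (Fin N),
      (I.filter fun i => i ∈ T).card + cA en (I.filter fun i => i ∉ T) = cA en I :=
    cA_split en T hT1
  have hfilS : ∀ I : Finset (Fin N), cS en (I.filter fun i => i ∉ T) = cS en I :=
    cS_filter en T fun i hi h' => hT1 i h' hi
  have hinj : Function.Injective fun j => tl (en (io T j) - Finsupp.single 0 1) := by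
    intro j j' hj
    have h1 := map_tl (sub_one_zero ((hmT _).mp (io_mem T j)))
    have h2 := map_tl (sub_one_zero ((hmT _).mp (io_mem T j')))
    have h3 : en (io T j) - Finsupp.single 0 1 = en (io T j') - Finsupp.single 0 1 := by
      rw [← h1, ← h2]
      exact congrArg (Finsupp.mapDomain Fin.succ) hj
    have h4 : en (io T j) = en (io T j') := by
      rw [← sub_single (hT1 _ (io_mem T j)), ← sub_single (hT1 _ (io_mem T j')), h3]
    exact (io_mono T).injective (hin h4)
  have himg : ∀ μ, μ ∈ Mo (Fin r) e ↔ ∃ j, tl (en (io T j) - Finsupp.single 0 1) = μ := by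
    intro μ
    constructor
    · intro hμ
      have h1 : μ.mapDomain Fin.succ + Finsupp.single 0 1 ∈ Mo (Fin (r + 1)) (e + 1) := by
        rw [mem_Mo, deg_add_single, deg_map, mem_Mo.mp hμ]
      obtain ⟨i, hi⟩ := (him _).mp h1
      have h2 : i ∈ T := (hmT i).mpr (by
        rw [hi, Finsupp.add_apply, map_zero', Finsupp.single_eq_same])
      obtain ⟨j, hj⟩ := io_surj T h2
      refine ⟨j, ?_⟩
      rw [hj, hi, add_tsub_cancel_right, tl_map]
    · rintro ⟨j, rfl⟩
      rw [mem_Mo, deg_tl (sub_one_zero ((hmT _).mp (io_mem T j)))]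
      exact deg_sub (hdeg _) (hT1 _ (io_mem T j))
  have hval : ∀ j, pi0 r (pA en (io T j)) = monomial (tl (en (io T j) - Finsupp.single 0 1)) 1 := by
    intro j
    rw [pi0_pA, if_pos ((hmT _).mp (io_mem T j))]
  have hoff : ∀ i, i ∉ T → pi0 r (pA en i) = 0 := by
    intro i hi
    rw [pi0_pA, if_neg fun h' => hi ((hmT i).mpr h')]
  have hf' : ∀ I, (f I).IsHomogeneous m ∧
      (¬ ((I.filter fun i => i ∈ T).card = b - cA en (I.filter fun i => i ∉ T) ∧
        (cS en (I.filter fun i => i ∉ T) = a ∧ cA en (I.filter fun i => i ∉ T) ≤ b)) →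
          f I = 0) := by
    intro I
    refine ⟨(hf I).1, fun h' => (hf I).2 fun h'' => h' ?_⟩
    have h1 := hsplit I
    rw [hfilS]
    obtain ⟨h2, h3⟩ := h''
    exact ⟨by omega, h2, by omega⟩
  obtain ⟨w, hw, hwd⟩ := specT T (n := r) (d' := e) (fun i => pi0 r (pA en i)) hoff _ hinj himg hval
    (fun A => b - cA en A) hm (fun A => cS en A = a ∧ cA en A ≤ b)
    (fun A _ => h _ (Nat.sub_le _ _)) f hf' hz
  refine ⟨w, fun I => ?_, hwd⟩
  have h1 := hw I
  have h2 := hsplit I
  simp only [hfilS] at h1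
  exact ⟨h1.1, fun h' => h1.2 fun h'' => h' ⟨h''.2.1, by omega⟩⟩

/-- `exR` in terms of `kd` -/
lemma exR_kd (hdeg : ∀ i, (en i).degree = e + 1) (hin : Function.Injective en)
    (him : ∀ μ, μ ∈ Mo (Fin (r + 1)) (e + 1) ↔ ∃ i, en i = μ) {a b m : ℕ} (hm : e ≤ m)
    (h : ∀ b' ≤ b, Exact r e b' m) (x : Finset (Fin N) → MvPolynomial (Fin (r + 1)) ℂ)
    (hx : x ∈ SP ℂ (Fin (r + 1)) (QQ en a b) m) (hr : rh x = x) (hz : rh (kd (pA en) x) = 0) :
    ∃ y ∈ SP ℂ (Fin (r + 1)) (QQ en a (b + 1)) (m - e), rh y = y ∧ rh (kd (pA en) y) = x := by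
  have hz' : kd (fun i => pi0 r (pA en i)) (fun I => pi0 r (x I)) = 0 := by
    rw [kd_pi0]
    funext I
    have h1 := congrFun hz I
    rw [rh_apply, ← inc_pi0] at h1
    exact inc_inj (h1.trans (map_zero (inc r)).symm)
  have hx' : (fun I => pi0 r (x I)) ∈ SP ℂ (Fin r) (QQ en a b) m := by
    intro I
    refine ⟨hom_pi0 (hx I).1, fun h' => ?_⟩
    show pi0 r (x I) = 0
    rw [(hx I).2 h', map_zero]
  obtain ⟨w, hw, hwd⟩ := exR_aux en hdeg hin him hm h _ hx' hz'
  refine ⟨fun I => inc r (w I), fun I => ?_, ?_, ?_⟩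
  · refine ⟨hom_inc (hw I).1, fun h' => ?_⟩
    show inc r (w I) = 0
    rw [(hw I).2 h', map_zero]
  · funext I
    rw [rh_apply]
    exact rhx_inc _
  · have hy : (fun I => pi0 r (inc r (w I))) = w := by
      funext I
      rw [pi0_inc]
    have h1 := kd_pi0 (pA en) (fun I => inc r (w I))
    rw [hy, hwd] at h1
    funext I
    have h2 : pi0 r (x I) = pi0 r (kd (pA en) (fun I => inc r (w I)) I) := congrFun h1 I
    have h3 := congrFun hr I
    rw [rh_apply] at h3
    rw [rh_apply, ← inc_pi0, ← h2, inc_pi0, h3]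

theorem exR (hin : Function.Injective en)
    (him : ∀ μ, μ ∈ Mo (Fin (r + 1)) (e + 1) ↔ ∃ i, en i = μ) {a b m : ℕ} (hm : e ≤ m)
    (h : ∀ b' ≤ b, Exact r e b' m) : (bik en hdeg).ExR a b m :=
  fun x hx hr hz => exR_kd en hdeg hin him hm h x hx hr hz

end

end Pool.Agent.H34.OPM
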