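import Pool.Agent.H34.OPM.Exs
import Pool.Agent.H40.OP.Lift
import Pool.Agent.H39.OP.F1

set_option autoImplicit false
set_option linter.unusedSectionVars false

/-!
# The input of the recursion for the concrete double complex

`fact0` : the homology at `(a, m)` vanishes if `a + d ≤ m`.
`inpI` : helper40's `InpK` for `bik` from `Known e` and `KnownAt r (e + 1)`.
-/

open MvPolynomial

namespace Pool.Agent.H34.OPM

open Pool.Agent.H27.OP Pool.Agent.H39.OP Pool.Agent.H80.OP Pool.Agent.H20.OPF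

theorem fact0 {r d a m : ℕ} (hd : 1 ≤ d) (h : a + d ≤ m) : Exact r d a m := by
  intro N B κ hκ hz
  obtain ⟨K, rfl⟩ : ∃ K, m = K + d := ⟨m - d, by omega⟩
  have hZ : κ ∈ ZK B a (K + d) := (F1_mem_ZK B).2 ⟨hκ, hz⟩
  obtain ⟨w, hw, hws⟩ := gen_M B.φ (F1_span B) (ZK_grad B a) (ZK_lin hd B a)
    (show a ≤ K by omega) hZ
  refine ⟨∑ j, aE ℂ j (w j), ?_⟩
  rw [map_sum, ← hws]
  refine Finset.sum_congr rfl fun j _ => ?_
  rw [F1_del_aE, ((F1_mem_ZK B).1 (hw j)).2, map_zero, sub_zero]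

variable {r N e : ℕ} (en : Fin N → (Fin (r + 1) →₀ ℕ)) (hdeg : ∀ i, (en i).degree = e + 1)

theorem inpI (hin : Function.Injective en)
    (him : ∀ μ, μ ∈ Mo (Fin (r + 1)) (e + 1) ↔ ∃ i, en i = μ) (he : 1 ≤ e) (h1 : Known e)
    (h2 : KnownAt r (e + 1)) {p : ℕ} (hp : p ≤ 3 * e) :
    Pool.Agent.H40.OP.InpK (bik en hdeg) p where
  hA := by
    intro a b m hm hb
    exact exA en hdeg hin him (by omega) (h1 (r + 1) b m hm (by omega))
  hR := by
    intro a b m hm hb
    exact exR en hdeg hin him (by omega) fun b' hb' => h1 r b' m hm (by omega)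
  hS0 := by
    intro a b m h
    exact exS en hdeg hin him (by omega) (fact0 (by omega) h)
  hS := by
    intro a b m ha hm
    exact exS en hdeg hin him (by omega) (h2 a m (by omega) (by omega))

end Pool.Agent.H34.OPM
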