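import Pool.Agent.H34.OPM.Mono
import Pool.Agent.H27.OP.Hp
import Pool.Agent.H80.OP.Rec

set_option autoImplicit false
set_option linter.unusedSectionVars false

/-!
# The concrete double complex

`bik en` : helper80's structure `BiK` on `Finset (Fin N) → MvPolynomial (Fin (r + 1)) ℂ`, where `en`
enumerates the exponents of degree `e + 1` of the variables `X 0, …, X r`; the distinguished
variable is `X 0`.  The letters `μ` with `μ 0 = 0` are the letters of `S`, the others those of `c A`.
-/

open MvPolynomial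

namespace Pool.Agent.H34.OPM

open Pool.Agent.H27.OP Pool.Agent.H80.OP

/-! ### the variable `X 0` -/

section var

variable {k : Type*} [Field k] {σ : Type*} [Fintype σ]

lemma hom_dvx (x : σ) {m : ℕ} {f : MvPolynomial σ k} (hf : f.IsHomogeneous (m + 1)) :
    (dvx x f).IsHomogeneous m := by
  intro ν hν
  rw [coeff_dvx] at hν
  have h2 : (Finsupp.single x 1 + ν).degree = m + 1 := by
    rw [Finsupp.degree_eq_weight_one]; exact hf hν
  rw [map_add, Finsupp.degree_single] at h2
  have h3 : ν.degree = m := by omega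
  rw [Finsupp.degree_eq_weight_one] at h3
  exact h3

lemma rhx_X (x : σ) (f : MvPolynomial σ k) : rhx x (X x * f) = 0 := by
  rw [rhx_apply, dvx_X, sub_self]

lemma rhx_rhx (x : σ) (f : MvPolynomial σ k) : rhx x (rhx x f) = rhx x f := by
  have h : rhx x (rhx x f) = rhx x f - rhx x (X x * dvx x f) := by
    rw [← map_sub, ← rhx_apply]
  rw [h, rhx_X, sub_zero]

lemma rhx_mon (x : σ) (μ : σ →₀ ℕ) (h : μ x = 0) (f : MvPolynomial σ k) :
    rhx x (monomial μ 1 * f) = monomial μ 1 * rhx x f := by
  rw [rhx_apply, rhx_apply, dvx_mon x μ h]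
  ring

lemma hom_rhx (x : σ) {m : ℕ} {f : MvPolynomial σ k} (hf : f.IsHomogeneous m) :
    (rhx x f).IsHomogeneous m := by
  rw [rhx_apply]
  exact hf.sub (hom_X_dvx x hf)

end var

/-! ### the counting functions -/

section cnt

variable {r N : ℕ} (en : Fin N → (Fin (r + 1) →₀ ℕ))

/-- the number of letters of `S` -/
def cS (I : Finset (Fin N)) : ℕ := (I.filter fun i => en i 0 = 0).card

/-- the number of letters of `c A` -/
def cA (I : Finset (Fin N)) : ℕ := (I.filter fun i => ¬ en i 0 = 0).card

lemma cS_insert {I : Finset (Fin N)} {i : Fin N} (hi : i ∉ I) (h : en i 0 = 0) :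
    cS en (insert i I) = cS en I + 1 := by
  unfold cS
  rw [Finset.filter_insert, if_pos h,
    Finset.card_insert_of_notMem fun h' => hi (Finset.mem_filter.mp h').1]

lemma cS_insert' {I : Finset (Fin N)} {i : Fin N} (h : ¬ en i 0 = 0) :
    cS en (insert i I) = cS en I := by
  unfold cS
  rw [Finset.filter_insert, if_neg h]

lemma cA_insert {I : Finset (Fin N)} {i : Fin N} (hi : i ∉ I) (h : ¬ en i 0 = 0) :
    cA en (insert i I) = cA en I + 1 := by
  unfold cA
  rw [Finset.filter_insert, if_pos h,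
    Finset.card_insert_of_notMem fun h' => hi (Finset.mem_filter.mp h').1]

lemma cA_insert' {I : Finset (Fin N)} {i : Fin N} (h : en i 0 = 0) :
    cA en (insert i I) = cA en I := by
  unfold cA
  rw [Finset.filter_insert, if_neg (not_not.mpr h)]

lemma card_cS_cA (I : Finset (Fin N)) : cS en I + cA en I = I.card := by
  unfold cS cA
  exact Finset.card_filter_add_card_filter_not _

/-- the letters of `S` as polynomials -/
noncomputable def pS (i : Fin N) : MvPolynomial (Fin (r + 1)) ℂ :=
  if en i 0 = 0 then monomial (en i) 1 else 0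

/-- the letters of `c A`, divided by `X 0` -/
noncomputable def pA (i : Fin N) : MvPolynomial (Fin (r + 1)) ℂ :=
  if en i 0 = 0 then 0 else monomial (en i - Finsupp.single 0 1) 1

lemma pS_ne {i : Fin N} (h : pS en i ≠ 0) : en i 0 = 0 := by
  by_contra h'
  exact h (if_neg h')

lemma pA_ne {i : Fin N} (h : pA en i ≠ 0) : ¬ en i 0 = 0 := by
  intro h'
  exact h (if_pos h')

lemma deg_sub {e : ℕ} {μ : Fin (r + 1) →₀ ℕ} (h : μ.degree = e + 1) (h0 : ¬ μ 0 = 0) :
    (μ - Finsupp.single 0 1).degree = e := by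
  have h3 : μ - Finsupp.single 0 1 + Finsupp.single 0 1 = μ := by
    ext y
    by_cases hy : y = 0
    · subst hy
      simp only [Finsupp.coe_add, Finsupp.coe_tsub, Pi.add_apply, Pi.sub_apply,
        Finsupp.single_eq_same]
      omega
    · simp [Finsupp.single_eq_of_ne hy]
  have h4 : (μ - Finsupp.single 0 1 + Finsupp.single 0 1).degree
      = (μ - Finsupp.single 0 1).degree + 1 := by
    rw [map_add, Finsupp.degree_single]
  rw [h3] at h4
  omega

variable {e : ℕ} (hdeg : ∀ i, (en i).degree = e + 1)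

include hdeg in
lemma hom_pS (i : Fin N) : (pS en i).IsHomogeneous (e + 1) := by
  unfold pS
  split_ifs
  · exact isHomogeneous_monomial _ (hdeg i)
  · exact isHomogeneous_zero _ _ _

include hdeg in
lemma hom_pA (i : Fin N) : (pA en i).IsHomogeneous e := by
  unfold pA
  split_ifs with h
  · exact isHomogeneous_zero _ _ _
  · exact isHomogeneous_monomial _ (deg_sub (hdeg i) h)

lemma pS_add (i : Fin N) :
    (monomial (en i) 1 : MvPolynomial (Fin (r + 1)) ℂ) = pS en i + X 0 * pA en i := by
  unfold pS pA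
  by_cases h : en i 0 = 0
  · rw [if_pos h, if_pos h, mul_zero, add_zero]
  · rw [if_neg h, if_neg h, zero_add, X_mon 0 (en i) h]

end cnt

/-! ### the instance -/

section inst

variable {r N e : ℕ} (en : Fin N → (Fin (r + 1) →₀ ℕ)) (hdeg : ∀ i, (en i).degree = e + 1)

/-- `a` letters of `S`, `b` letters of `c A` -/
def QQ (a b : ℕ) (I : Finset (Fin N)) : Prop := cS en I = a ∧ cA en I = b

/-- multiplication by `X 0` -/
noncomputable def mc : (Finset (Fin N) → MvPolynomial (Fin (r + 1)) ℂ) →ₗ[ℂ]
    (Finset (Fin N) → MvPolynomial (Fin (r + 1)) ℂ) :=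
  lm ℂ N (LinearMap.mulLeft ℂ (X 0))

lemma mc_apply (f : Finset (Fin N) → MvPolynomial (Fin (r + 1)) ℂ) (I : Finset (Fin N)) :
    mc f I = X 0 * f I := rfl

/-- `X 0 = 0` in the coefficients -/
noncomputable def rh : (Finset (Fin N) → MvPolynomial (Fin (r + 1)) ℂ) →ₗ[ℂ]
    (Finset (Fin N) → MvPolynomial (Fin (r + 1)) ℂ) := lm ℂ N (rhx 0)

lemma rh_apply (f : Finset (Fin N) → MvPolynomial (Fin (r + 1)) ℂ) (I : Finset (Fin N)) :
    rh f I = rhx 0 (f I) := rfl

/-- the part with `a` letters of `S` -/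
noncomputable def prS (a : ℕ) : (Finset (Fin N) → MvPolynomial (Fin (r + 1)) ℂ) →ₗ[ℂ]
    (Finset (Fin N) → MvPolynomial (Fin (r + 1)) ℂ) where
  toFun f := fun I => if cS en I = a then f I else 0
  map_add' f g := by
    funext I
    simp only [Pi.add_apply]
    split_ifs
    · rfl
    · rw [add_zero]
  map_smul' t f := by
    funext I
    simp only [Pi.smul_apply, RingHom.id_apply]
    split_ifs
    · rfl
    · rw [smul_zero]

lemma kd_mul {ψ : Fin N → MvPolynomial (Fin (r + 1)) ℂ}
    (f : Finset (Fin N) → MvPolynomial (Fin (r + 1)) ℂ) :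
    kd ψ (mc f) = mc (kd ψ f) := by
  have h := kd_map (LinearMap.mulLeft ℂ (X 0 : MvPolynomial (Fin (r + 1)) ℂ)) ψ ψ
    (fun i g => by
      rw [LinearMap.mulLeft_apply, LinearMap.mulLeft_apply, ← mul_assoc, mul_comm (X 0), mul_assoc])
    f
  exact h

/-- **the concrete double complex** -/
noncomputable def bik : BiK ℂ (Finset (Fin N) → MvPolynomial (Fin (r + 1)) ℂ) e where
  G a b m := SP ℂ (Fin (r + 1)) (QQ en a b) m
  dS := kd (pS en)
  dA := kd (pA en)
  c := mc
  rho := rh
  pr := prS en
  dS_mem {a b m x} hx := by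
    refine kd_SP (hom_pS en hdeg) ?_ hx
    rintro I i hi h0 ⟨h1, h2⟩
    have h := pS_ne en h0
    rw [cS_insert en hi h] at h1
    rw [cA_insert' en h] at h2
    exact ⟨by omega, h2⟩
  dS_zero {b m x} hx := by
    refine kd_zero ?_ hx
    rintro I i hi h0 ⟨h1, h2⟩
    rw [cS_insert en hi (pS_ne en h0)] at h1
    omega
  dA_mem {a b m x} hx := by
    refine kd_SP (hom_pA en hdeg) ?_ hx
    rintro I i hi h0 ⟨h1, h2⟩
    have h := pA_ne en h0
    rw [cA_insert en hi h] at h2
    rw [cS_insert' en h] at h1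
    exact ⟨h1, by omega⟩
  dA_zero {a m x} hx := by
    refine kd_zero ?_ hx
    rintro I i hi h0 ⟨h1, h2⟩
    rw [cA_insert en hi (pA_ne en h0)] at h2
    omega
  c_mem {a b m x} hx := by
    intro I
    rw [mc_apply]
    refine ⟨?_, fun h => by rw [(hx I).2 h, mul_zero]⟩
    rw [add_comm m 1]
    exact (isHomogeneous_X ℂ (0 : Fin (r + 1))).mul (hx I).1
  dSdS x := kd_kd _ _
  dAdA x := kd_kd _ _
  anti x := kd_anti _ _ _
  c_dS x := kd_mul x
  c_dA x := kd_mul x
  c_inj x h := by
    funext I
    have h1 := congrFun h I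
    rw [mc_apply] at h1
    exact (mul_eq_zero.mp h1).resolve_left (X_ne_zero 0)
  rho_mem {a b m x} hx := by
    intro I
    rw [rh_apply]
    exact ⟨hom_rhx 0 (hx I).1, fun h => by rw [(hx I).2 h, map_zero]⟩
  rho_rho x := by
    funext I
    rw [rh_apply, rh_apply, rhx_rhx]
  rho_c x := by
    funext I
    rw [rh_apply, mc_apply, rhx_X]
    rfl
  rho_dv {a b m x} hx h := by
    refine ⟨fun I => dvx 0 (x I), ?_, ?_⟩
    · intro I
      exact ⟨hom_dvx 0 (hx I).1, fun h' => by
        show dvx 0 (x I) = 0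
        rw [(hx I).2 h', map_zero]⟩
    · funext I
      have h1 := congrFun h I
      rw [rh_apply, rhx_apply] at h1
      rw [mc_apply]
      exact (sub_eq_zero.mp h1).symm
  rho_dS x := by
    have h := kd_map (rhx (0 : Fin (r + 1))) (pS en) (pS en) (fun i g => by
      unfold pS
      split_ifs with h0
      · exact rhx_mon 0 _ h0 g
      · rw [zero_mul, zero_mul, map_zero]) x
    exact h.symm
  rho_dA x := by
    have h1 : x = rh x + mc (fun I => dvx 0 (x I)) := by
      funext I
      rw [Pi.add_apply, rh_apply, mc_apply, rhx_apply, sub_add_cancel]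
    have h2 : rh (kd (pA en) x) = rh (kd (pA en) (rh x)) + rh (kd (pA en) (mc fun I => dvx 0 (x I)))
        := by
      rw [← map_add, ← map_add, ← h1]
    rw [h2, kd_mul]
    have h3 : rh (mc (kd (pA en) fun I => dvx 0 (x I))) = 0 := by
      funext I
      rw [rh_apply, mc_apply, rhx_X]
      rfl
    rw [h3, add_zero]
  pr_same {a b m x} hx := by
    funext I
    show (if cS en I = a then x I else 0) = x I
    split_ifs with h
    · rfl
    · exact ((hx I).2 fun h' => h h'.1).symm
  pr_other {a a' b m x} hne hx := by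
    funext I
    show (if cS en I = a' then x I else 0) = 0
    split_ifs with h
    · exact (hx I).2 fun h' => hne (h'.1.symm.trans h)
    · rfl

lemma bik_G (a b m : ℕ) : (bik en hdeg).G a b m = SP ℂ (Fin (r + 1)) (QQ en a b) m := rfl

lemma bik_D (hin : Function.Injective en) (him : ∀ μ, μ ∈ Mo (Fin (r + 1)) (e + 1) ↔ ∃ i, en i = μ) :
    (bik en hdeg).D = (SK (mbs (k := ℂ) en hin him)).del := by
  rw [mbs_del]
  refine LinearMap.ext fun f => funext fun I => ?_
  show (kd (pS en) f + mc (kd (pA en) f)) I = _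
  rw [Pi.add_apply, mc_apply, kd_apply, kd_apply, kd_apply, Finset.mul_sum,
    ← Finset.sum_add_distrib]
  refine Finset.sum_congr rfl fun i _ => ?_
  rw [pS_add en i]
  ring

end inst

end Pool.Agent.H34.OPM
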