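import Pool.Agent.H34.OPM.Spec
import Pool.Agent.H27.OP.Inst

set_option autoImplicit false
set_option linter.unusedSectionVars false

/-!
# The Koszul complex in the monomial basis

`mbs en` is the monomial basis of the forms of degree `d` given by an enumeration `en` of the
exponents.  `kd` in terms of operators, supports, gradings.
-/

open MvPolynomial

namespace Pool.Agent.H34.OPM

open Pool.Agent.H27.OP

variable {k : Type*} [Field k] {σ : Type*}

/-! ### general facts on `kd` -/

section

variable {N : ℕ}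

lemma kd_eq (ψ : Fin N → MvPolynomial σ k) :
    kd ψ = ∑ i, (lm k N (LinearMap.mulLeft k (ψ i)) * aJ k i
      : Module.End k (Finset (Fin N) → MvPolynomial σ k)) := by
  refine LinearMap.ext fun f => funext fun I => ?_
  rw [kd_apply, LinearMap.sum_apply, Finset.sum_apply]
  refine Finset.sum_congr rfl fun i _ => ?_
  rw [Module.End.mul_apply, lm_apply, LinearMap.mulLeft_apply]

lemma kd_anti (ψ ψ' : Fin N → MvPolynomial σ k) (f : Finset (Fin N) → MvPolynomial σ k) :
    kd ψ (kd ψ' f) = -kd ψ' (kd ψ f) := by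
  have h : (kd ψ * kd ψ' : Module.End k (Finset (Fin N) → MvPolynomial σ k))
      = -(kd ψ' * kd ψ) := by
    rw [kd_eq, kd_eq, Finset.sum_mul_sum, Finset.sum_mul_sum, Finset.sum_comm,
      ← Finset.sum_neg_distrib]
    refine Finset.sum_congr rfl fun j _ => ?_
    rw [← Finset.sum_neg_distrib]
    refine Finset.sum_congr rfl fun i _ => ?_
    have h1 : ∀ (p q : MvPolynomial σ k) (i j : Fin N),
        (lm k N (LinearMap.mulLeft k p) * aJ k i * (lm k N (LinearMap.mulLeft k q) * aJ k j)
          : Module.End k (Finset (Fin N) → MvPolynomial σ k))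
        = lm k N (LinearMap.mulLeft k (p * q)) * (aJ k i * aJ k j) := by
      intro p q i j
      rw [mul_assoc, ← mul_assoc (aJ k i), ← lm_aJ, mul_assoc, ← mul_assoc, ← map_mul]
      congr 2
      exact (LinearMap.mulLeft_mul k _ p q).symm
    rw [h1, h1, aJJ, mul_comm (ψ i)]
    exact mul_neg (α := Module.End k (Finset (Fin N) → MvPolynomial σ k)) _ _
  have h2 := LinearMap.congr_fun h f
  rwa [Module.End.mul_apply, LinearMap.neg_apply, Module.End.mul_apply] at h2

lemma kd_kd [CharZero k] (ψ : Fin N → MvPolynomial σ k) (f : Finset (Fin N) → MvPolynomial σ k) :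
    kd ψ (kd ψ f) = 0 := by
  have h := kd_anti ψ ψ f
  have h2 : (2 : k) • kd ψ (kd ψ f) = 0 := by
    rw [two_smul]
    nth_rewrite 1 [h]
    exact neg_add_cancel _
  have h3 := congrArg (fun z => (2 : k)⁻¹ • z) h2
  simpa [smul_smul] using h3

/-- `kd` commutes with coefficientwise operators commuting with the `ψ i`, up to a ring map -/
lemma kd_map {τ : Type*} (T : MvPolynomial σ k →ₗ[k] MvPolynomial τ k)
    (ψ : Fin N → MvPolynomial σ k) (ψ' : Fin N → MvPolynomial τ k)
    (h : ∀ i g, T (ψ i * g) = ψ' i * T g) (f : Finset (Fin N) → MvPolynomial σ k) :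
    kd ψ' (fun I => T (f I)) = fun I => T (kd ψ f I) := by
  funext I
  rw [kd_apply, kd_apply, map_sum]
  refine Finset.sum_congr rfl fun i _ => ?_
  rw [h, aJ_apply, aJ_apply]
  split_ifs
  · rw [map_zero]
  · rw [map_smul]

/-! ### supports -/

/-- elements with support in `Q`, coefficients homogeneous of degree `m` -/
def SP (k : Type*) [Field k] (σ : Type*) {N : ℕ} (Q : Finset (Fin N) → Prop) (m : ℕ) :
    Submodule k (Finset (Fin N) → MvPolynomial σ k) where
  carrier := {f | ∀ I, (f I).IsHomogeneous m ∧ (¬ Q I → f I = 0)}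
  add_mem' := by
    intro f g hf hg I
    refine ⟨(hf I).1.add (hg I).1, fun h => ?_⟩
    rw [Pi.add_apply, (hf I).2 h, (hg I).2 h, add_zero]
  zero_mem' := fun I => ⟨isHomogeneous_zero _ _ _, fun _ => rfl⟩
  smul_mem' := by
    intro t f hf I
    refine ⟨?_, fun h => by rw [Pi.smul_apply, (hf I).2 h, smul_zero]⟩
    rw [Pi.smul_apply, smul_eq_C_mul]
    exact (hf I).1.C_mul t

lemma mem_SP {Q : Finset (Fin N) → Prop} {m : ℕ} {f : Finset (Fin N) → MvPolynomial σ k} :
    f ∈ SP k σ Q m ↔ ∀ I, (f I).IsHomogeneous m ∧ (¬ Q I → f I = 0) := Iff.rfl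

lemma SP_mono {Q Q' : Finset (Fin N) → Prop} (h : ∀ I, Q I → Q' I) {m : ℕ} :
    SP k σ Q m ≤ SP k σ Q' m := fun _ hf I => ⟨(hf I).1, fun h' => (hf I).2 fun h'' => h' (h I h'')⟩

lemma kd_SP {Q Q' : Finset (Fin N) → Prop} {m t : ℕ} {ψ : Fin N → MvPolynomial σ k}
    (hψ : ∀ i, (ψ i).IsHomogeneous t) (h : ∀ I i, i ∉ I → ψ i ≠ 0 → Q (insert i I) → Q' I)
    {f : Finset (Fin N) → MvPolynomial σ k} (hf : f ∈ SP k σ Q m) :
    kd ψ f ∈ SP k σ Q' (m + t) := by
  intro I
  rw [kd_apply]
  constructor
  · refine IsHomogeneous.sum _ _ _ fun i _ => ?_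
    have h1 : (aJ k i f I).IsHomogeneous m := by
      rw [aJ_apply]
      split_ifs
      · exact isHomogeneous_zero _ _ _
      · rw [smul_eq_C_mul]
        exact (hf _).1.C_mul _
    rw [add_comm]
    exact (hψ i).mul h1
  · intro hQ
    refine Finset.sum_eq_zero fun i _ => ?_
    rw [aJ_apply]
    split_ifs with hi
    · rw [mul_zero]
    · by_cases h0 : ψ i = 0
      · rw [h0, zero_mul]
      · rw [(hf (insert i I)).2 fun h' => hQ (h I i hi h0 h'), smul_zero, mul_zero]

lemma kd_zero {Q : Finset (Fin N) → Prop} {m : ℕ} {ψ : Fin N → MvPolynomial σ k}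
    (h : ∀ I i, i ∉ I → ψ i ≠ 0 → ¬ Q (insert i I))
    {f : Finset (Fin N) → MvPolynomial σ k} (hf : f ∈ SP k σ Q m) : kd ψ f = 0 := by
  funext I
  rw [kd_apply]
  refine Finset.sum_eq_zero fun i _ => ?_
  rw [aJ_apply]
  split_ifs with hi
  · rw [mul_zero]
  · by_cases h0 : ψ i = 0
    · rw [h0, zero_mul]
    · rw [(hf (insert i I)).2 (h I i hi h0), smul_zero, mul_zero]

end

/-! ### the monomial basis -/

variable [Fintype σ]

/-- the monomial basis of the forms of degree `d` -/
noncomputable def mbs {N d : ℕ} (en : Fin N → (σ →₀ ℕ)) (hin : Function.Injective en)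
    (him : ∀ μ, μ ∈ Mo σ d ↔ ∃ i, en i = μ) : Bs σ k N d := by
  classical
  exact
  { α := fun μ i => if μ = en i then 1 else 0
    γ := fun μ i => if μ = en i then 1 else 0
    φ := fun i => monomial (en i) 1
    ga := by
      intro μ _ ν _ hne
      refine Finset.sum_eq_zero fun i _ => ?_
      by_cases h1 : μ = en i
      · rw [if_neg (fun h2 : ν = en i => hne (h1.trans h2.symm)), mul_zero]
      · rw [if_neg h1, zero_mul]
    gas := by
      intro μ hμ
      obtain ⟨i, rfl⟩ := (him μ).mp hμ
      rw [Finset.sum_eq_single i]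
      · rw [if_pos rfl, one_mul]
      · intro j _ hj
        rw [if_neg (fun h => hj (hin h).symm), zero_mul]
      · intro h
        exact absurd (Finset.mem_univ _) h
    hom := fun i => isHomogeneous_monomial _ (mem_Mo.mp ((him _).mpr ⟨i, rfl⟩))
    coe := by
      intro μ _ i
      rw [coeff_monomial]
      by_cases h : μ = en i
      · rw [if_pos h, if_pos h.symm]
      · rw [if_neg h, if_neg (fun h' => h h'.symm)]
    ag := by
      intro i j
      rw [Finset.sum_eq_single (en i)]
      · by_cases h : i = j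
        · subst h
          rw [if_pos rfl, if_pos rfl, one_mul]
        · rw [if_neg h, if_neg (fun h' => h (hin h')), mul_zero]
      · intro μ _ hμ
        rw [if_neg hμ, zero_mul]
      · intro h
        exact absurd ((him _).mpr ⟨i, rfl⟩) h }

section

variable {N d : ℕ} (en : Fin N → (σ →₀ ℕ)) (hin : Function.Injective en)
  (him : ∀ μ, μ ∈ Mo σ d ↔ ∃ i, en i = μ)

lemma mbs_φ (i : Fin N) : (mbs (k := k) en hin him).φ i = monomial (en i) 1 := rfl

lemma mbs_E (i : Fin N) : (SK (mbs (k := k) en hin him)).E (en i) = aE k i := by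
  classical
  refine LinearMap.ext fun f => ?_
  rw [SK_E, Finset.sum_eq_single i]
  · have : (mbs (k := k) en hin him).α (en i) i = 1 := if_pos rfl
    rw [this, one_smul]
  · intro j _ hj
    have : (mbs (k := k) en hin him).α (en i) j = 0 := if_neg fun h => hj (hin h).symm
    rw [this, zero_smul]
  · intro h
    exact absurd (Finset.mem_univ _) h

lemma mbs_J (i : Fin N) : (SK (mbs (k := k) en hin him)).J (en i) = aJ k i := by
  classical
  refine LinearMap.ext fun f => ?_
  rw [SK_J, Finset.sum_eq_single i]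
  · have : (mbs (k := k) en hin him).γ (en i) i = 1 := if_pos rfl
    rw [this, one_smul]
  · intro j _ hj
    have : (mbs (k := k) en hin him).γ (en i) j = 0 := if_neg fun h => hj (hin h).symm
    rw [this, zero_smul]
  · intro h
    exact absurd (Finset.mem_univ _) h

lemma mbs_del : ((SK (mbs (k := k) en hin him)).del
    : Module.End k (Finset (Fin N) → MvPolynomial σ k))
    = kd fun i => monomial (en i) 1 := by
  refine LinearMap.ext fun f => funext fun I => ?_
  rw [SK_del, kd_apply]
  rfl

/-- sums over `Mo σ d` as sums over `Fin N` -/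
lemma sum_Mo {V : Type*} [AddCommMonoid V] (hin : Function.Injective en)
    (him : ∀ μ, μ ∈ Mo σ d ↔ ∃ i, en i = μ) (g : (σ →₀ ℕ) → V) :
    ∑ μ ∈ Mo σ d, g μ = ∑ i, g (en i) := by
  classical
  have h1 : Mo σ d = Finset.univ.image en := by
    ext μ
    rw [him μ, Finset.mem_image]
    simp
  rw [h1, Finset.sum_image fun i _ j _ h => hin h]

end

/-- enumerations exist -/
lemma exists_enum (σ : Type*) [Fintype σ] (d : ℕ) :
    ∃ (N : ℕ) (en : Fin N → (σ →₀ ℕ)), Function.Injective en ∧
      ∀ μ, μ ∈ Mo σ d ↔ ∃ i, en i = μ := by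
  refine ⟨(Mo σ d).card, fun i => ((Mo σ d).equivFin.symm i : σ →₀ ℕ), ?_, ?_⟩
  · intro i j h
    exact (Mo σ d).equivFin.symm.injective (Subtype.ext h)
  · intro μ
    constructor
    · intro h
      refine ⟨(Mo σ d).equivFin ⟨μ, h⟩, ?_⟩
      simp
    · rintro ⟨i, rfl⟩
      exact Subtype.prop _

end Pool.Agent.H34.OPM
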