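import Pool.Agent.H34.OPM.Model
import Pool.Agent.H20.OPF.Exact

set_option autoImplicit false
set_option linter.unusedSectionVars false

/-!
# Removing the variable `X 0`; enumerations of sets of letters

`pi0 : ℂ[X 0, …, X r] → ℂ[X 0, …, X (r-1)]`, `X 0 ↦ 0`, and its section `inc`.
`io T` : the increasing enumeration of a set `T` of letters.  `spec` in terms of `T`.
-/

open MvPolynomial

namespace Pool.Agent.H34.OPM

open Pool.Agent.H27.OP Pool.Agent.H80.OP Pool.Agent.H20.OPF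

/-! ### the quotient by `X 0` -/

section quo

variable {r : ℕ}

/-- `X 0 ↦ 0` -/
noncomputable def pi0 (r : ℕ) : MvPolynomial (Fin (r + 1)) ℂ →ₐ[ℂ] MvPolynomial (Fin r) ℂ :=
  aeval (Fin.cases 0 X)

/-- the inclusion -/
noncomputable def inc (r : ℕ) : MvPolynomial (Fin r) ℂ →ₐ[ℂ] MvPolynomial (Fin (r + 1)) ℂ :=
  rename Fin.succ

lemma pi0_X0 : pi0 r (X 0) = 0 := by
  unfold pi0
  rw [aeval_X]
  rfl

lemma pi0_inc (g : MvPolynomial (Fin r) ℂ) : pi0 r (inc r g) = g := by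
  unfold pi0 inc
  rw [aeval_rename]
  have h : ((Fin.cases 0 X : Fin (r + 1) → MvPolynomial (Fin r) ℂ) ∘ Fin.succ) = X := by
    funext i
    rfl
  rw [h]
  exact aeval_X_left_apply g

lemma inc_inj {g h : MvPolynomial (Fin r) ℂ} (H : inc r g = inc r h) : g = h := by
  have := congrArg (pi0 r) H
  rwa [pi0_inc, pi0_inc] at this

/-- the exponent without `X 0` -/
noncomputable def tl (μ : Fin (r + 1) →₀ ℕ) : Fin r →₀ ℕ :=
  μ.comapDomain Fin.succ (Fin.succ_injective r).injOn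

lemma map_tl {μ : Fin (r + 1) →₀ ℕ} (h : μ 0 = 0) : (tl μ).mapDomain Fin.succ = μ := by
  unfold tl
  refine Finsupp.mapDomain_comapDomain _ (Fin.succ_injective r) μ ?_
  intro i hi
  have hi' : μ i ≠ 0 := Finsupp.mem_support_iff.mp hi
  have : i ≠ 0 := fun h' => hi' (by rw [h', h])
  exact ⟨i.pred this, Fin.succ_pred i this⟩

lemma tl_map (ν : Fin r →₀ ℕ) : tl (ν.mapDomain Fin.succ) = ν := by
  ext i
  unfold tl
  rw [Finsupp.comapDomain_apply, Finsupp.mapDomain_apply (Fin.succ_injective r)]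

lemma map_zero' (ν : Fin r →₀ ℕ) : (ν.mapDomain Fin.succ : Fin (r + 1) →₀ ℕ) 0 = 0 := by
  refine Finsupp.mapDomain_of_notMem_range _ _ ?_
  rintro ⟨i, hi⟩
  exact Fin.succ_ne_zero i hi

lemma mon_inc {μ : Fin (r + 1) →₀ ℕ} (h : μ 0 = 0) (c : ℂ) :
    monomial μ c = inc r (monomial (tl μ) c) := by
  unfold inc
  rw [rename_monomial, map_tl h]

lemma pi0_mon {μ : Fin (r + 1) →₀ ℕ} (h : μ 0 = 0) (c : ℂ) :
    pi0 r (monomial μ c) = monomial (tl μ) c := by
  rw [mon_inc h, pi0_inc]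

lemma mon_X0 {μ : Fin (r + 1) →₀ ℕ} (h : ¬ μ 0 = 0) (c : ℂ) :
    (monomial μ c : MvPolynomial (Fin (r + 1)) ℂ) = X 0 * monomial (μ - Finsupp.single 0 1) c := by
  have h1 := X_mon (k := ℂ) 0 μ h
  have h2 : ∀ ν : Fin (r + 1) →₀ ℕ, (monomial ν c : MvPolynomial (Fin (r + 1)) ℂ)
      = C c * monomial ν 1 := by
    intro ν
    rw [C_mul_monomial, mul_one]
  rw [h2, ← h1, h2 (μ - _)]
  ring

lemma pi0_mon' {μ : Fin (r + 1) →₀ ℕ} (h : ¬ μ 0 = 0) (c : ℂ) :
    pi0 r (monomial μ c) = 0 := by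
  rw [mon_X0 h, map_mul, pi0_X0, zero_mul]

lemma dvx_mon0 {μ : Fin (r + 1) →₀ ℕ} (h : μ 0 = 0) (c : ℂ) :
    dvx (0 : Fin (r + 1)) (monomial μ c) = 0 := by
  refine MvPolynomial.ext _ _ fun ν => ?_
  rw [coeff_dvx, coeff_monomial, coeff_zero, if_neg]
  intro h'
  have h1 := DFunLike.congr_fun h' 0
  rw [h, Finsupp.add_apply, Finsupp.single_eq_same] at h1
  omega

lemma inc_pi0 (f : MvPolynomial (Fin (r + 1)) ℂ) : inc r (pi0 r f) = rhx 0 f := by
  have h : (inc r).toLinearMap ∘ₗ (pi0 r).toLinearMap = rhx (0 : Fin (r + 1)) := by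
    refine linearMap_ext fun μ => LinearMap.ext fun c => ?_
    show inc r (pi0 r (monomial μ c)) = rhx 0 (monomial μ c)
    by_cases h : μ 0 = 0
    · rw [pi0_mon h, ← mon_inc h, rhx_apply, dvx_mon0 h, mul_zero, sub_zero]
    · rw [pi0_mon' h, map_zero, mon_X0 h, rhx_X]
  exact LinearMap.congr_fun h f

lemma rhx_inc (g : MvPolynomial (Fin r) ℂ) : rhx 0 (inc r g) = inc r g := by
  rw [← inc_pi0, pi0_inc]

lemma hom_inc {m : ℕ} {g : MvPolynomial (Fin r) ℂ} (h : g.IsHomogeneous m) :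
    (inc r g).IsHomogeneous m := h.rename_isHomogeneous

lemma hom_pi0 {m : ℕ} {f : MvPolynomial (Fin (r + 1)) ℂ} (h : f.IsHomogeneous m) :
    (pi0 r f).IsHomogeneous m := by
  have h1 : (inc r (pi0 r f)).IsHomogeneous m := by
    rw [inc_pi0]
    exact hom_rhx 0 h
  exact (IsHomogeneous.rename_isHomogeneous_iff (Fin.succ_injective r)).mp h1

lemma deg_map (ν : Fin r →₀ ℕ) : (ν.mapDomain Fin.succ : Fin (r + 1) →₀ ℕ).degree = ν.degree := by
  have h1 : (monomial (ν.mapDomain Fin.succ) (1 : ℂ) : MvPolynomial (Fin (r + 1)) ℂ).IsHomogeneous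
      ν.degree := by
    have h2 : (monomial (ν.mapDomain Fin.succ) (1 : ℂ) : MvPolynomial (Fin (r + 1)) ℂ)
        = inc r (monomial ν 1) := by
      unfold inc
      rw [rename_monomial]
    rw [h2]
    exact hom_inc (isHomogeneous_monomial _ rfl)
  have h3 := h1 (d := ν.mapDomain Fin.succ) (by rw [coeff_monomial, if_pos rfl]; exact one_ne_zero)
  rw [Finsupp.degree_eq_weight_one]
  exact h3

lemma deg_tl {μ : Fin (r + 1) →₀ ℕ} (h : μ 0 = 0) : (tl μ).degree = μ.degree := by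
  rw [← deg_map, map_tl h]

end quo

/-! ### the increasing enumeration of a set of letters -/

section io

variable {N : ℕ} (T : Finset (Fin N))

/-- the increasing enumeration of `T` -/
def io : Fin T.card → Fin N := T.orderEmbOfFin rfl

lemma io_mono : StrictMono (io T) := (T.orderEmbOfFin rfl).strictMono

lemma io_mem (j : Fin T.card) : io T j ∈ T := T.orderEmbOfFin_mem rfl j

lemma io_surj {i : Fin N} (h : i ∈ T) : ∃ j, io T j = i := by
  have h1 : i ∈ Set.range (T.orderEmbOfFin rfl) := by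
    rw [Finset.range_orderEmbOfFin]
    exact h
  exact h1

lemma act_io (I : Finset (Fin N)) : (act (io T) I).card = (I.filter fun i => i ∈ T).card := by
  classical
  have h : (act (io T) I).image (io T) = I.filter fun i => i ∈ T := by
    ext i
    rw [Finset.mem_image, Finset.mem_filter]
    constructor
    · rintro ⟨j, hj, rfl⟩
      exact ⟨(mem_act _).mp hj, io_mem T j⟩
    · rintro ⟨h1, h2⟩
      obtain ⟨j, rfl⟩ := io_surj T h2
      exact ⟨j, (mem_act _).mpr h1, rfl⟩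
  rw [← h, Finset.card_image_of_injective _ (io_mono T).injective]

lemma pas_io (I : Finset (Fin N)) : pas (io T) I = I.filter fun i => i ∉ T := by
  ext i
  rw [mem_pas, Finset.mem_filter]
  constructor
  · rintro ⟨h1, h2⟩
    refine ⟨h1, fun h => ?_⟩
    obtain ⟨j, hj⟩ := io_surj T h
    exact h2 j hj
  · rintro ⟨h1, h2⟩
    exact ⟨h1, fun j hj => h2 (hj ▸ io_mem T j)⟩

/-- exactness with spectators, from `Exact` -/
theorem specT {n d' : ℕ} (ψ : Fin N → MvPolynomial (Fin n) ℂ) (hψ : ∀ i, i ∉ T → ψ i = 0)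
    (en' : Fin T.card → (Fin n →₀ ℕ)) (hin' : Function.Injective en')
    (him' : ∀ μ, μ ∈ Mo (Fin n) d' ↔ ∃ i, en' i = μ)
    (hen : ∀ j, ψ (io T j) = monomial (en' j) 1)
    (b : Finset (Fin N) → ℕ) {m : ℕ} (hm : d' ≤ m) (P : Finset (Fin N) → Prop)
    (hex : ∀ A, P A → Exact n d' (b A) m)
    (f : Finset (Fin N) → MvPolynomial (Fin n) ℂ)
    (hf : ∀ I, (f I).IsHomogeneous m ∧
      (¬ ((I.filter fun i => i ∈ T).card = b (I.filter fun i => i ∉ T) ∧
        P (I.filter fun i => i ∉ T)) → f I = 0))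
    (hz : kd ψ f = 0) :
    ∃ w : Finset (Fin N) → MvPolynomial (Fin n) ℂ,
      (∀ I, (w I).IsHomogeneous (m - d') ∧
        (¬ ((I.filter fun i => i ∈ T).card = b (I.filter fun i => i ∉ T) + 1 ∧
          P (I.filter fun i => i ∉ T)) → w I = 0)) ∧
      kd ψ w = f := by
  have hψ' : ∀ i, (∀ j, io T j ≠ i) → ψ i = 0 := fun i hi => hψ i fun h => by
    obtain ⟨j, hj⟩ := io_surj T h
    exact hi j hj
  have hex' : ∀ A, P A → ∀ g : Finset (Fin T.card) → MvPolynomial (Fin n) ℂ,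
      (∀ I, (g I).IsHomogeneous m ∧ (I.card ≠ b A → g I = 0)) → kd (fun i => ψ (io T i)) g = 0 →
      ∃ w : Finset (Fin T.card) → MvPolynomial (Fin n) ℂ,
        (∀ I, (w I).IsHomogeneous (m - d') ∧ (I.card ≠ b A + 1 → w I = 0)) ∧
        kd (fun i => ψ (io T i)) w = g := by
    intro A hA g hg hgz
    have hpsi : (fun i => ψ (io T i)) = fun i => monomial (en' i) 1 := funext hen
    rw [hpsi] at hgz ⊢
    rw [← mbs_del en' hin' him'] at hgz ⊢
    have h1 := hex A hA _ (mbs en' hin' him') g hg hgz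
    obtain ⟨w0, hw0⟩ := h1
    have h2 : (SK (mbs en' hin' him')).del w0 ∈ (AK (mbs en' hin' him')).G (b A) (m - d' + d') := by
      rw [hw0, Nat.sub_add_cancel hm]
      exact hg
    obtain ⟨w, hw, hwd⟩ := (AK (mbs en' hin' him')).lift h2
    exact ⟨w, hw, hwd.trans hw0⟩
  have hf' : ∀ I, (f I).IsHomogeneous m ∧
      (¬ ((act (io T) I).card = b (pas (io T) I) ∧ P (pas (io T) I)) → f I = 0) := by
    intro I
    rw [act_io, pas_io]
    exact hf I
  obtain ⟨w, hw, hwd⟩ := spec (io T) (io_mono T) ψ hψ' b P hex' f hf' hz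
  refine ⟨w, fun I => ?_, hwd⟩
  have := hw I
  rwa [act_io, pas_io] at this

end io

end Pool.Agent.H34.OPM
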