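import Pool.Agent.H27.OP.Car

set_option autoImplicit false
set_option linter.unusedSectionVars false

/-!
# Koszul complexes with spectators

`kd ψ` is the Koszul differential of a family `ψ : Fin N → MvPolynomial σ k`.  If `ψ` vanishes
outside the image of a strictly increasing map `ι : Fin N' → Fin N`, the complex of `ψ` is a sum of
copies (`sl A`, one for every set `A` of spectators) of the complex of `ψ ∘ ι`, so exactness of the
latter gives exactness of the former, and nothing happens to the spectators.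

`act I` : the letters of `I` in the image of `ι`; `pas I` : the spectators in `I`.
-/

open MvPolynomial

namespace Pool.Agent.H34.OPM

open Pool.Agent.H27.OP

variable {k : Type*} [Field k] {σ : Type*}

/-- the Koszul differential of a family of polynomials -/
noncomputable def kd {N : ℕ} (ψ : Fin N → MvPolynomial σ k) :
    (Finset (Fin N) → MvPolynomial σ k) →ₗ[k] (Finset (Fin N) → MvPolynomial σ k) where
  toFun f := fun I => ∑ i, ψ i * aJ k i f I
  map_add' f g := by
    funext I
    rw [Pi.add_apply, ← Finset.sum_add_distrib]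
    refine Finset.sum_congr rfl fun i _ => ?_
    rw [map_add, Pi.add_apply, mul_add]
  map_smul' t f := by
    funext I
    rw [RingHom.id_apply, Pi.smul_apply, Finset.smul_sum]
    refine Finset.sum_congr rfl fun i _ => ?_
    rw [map_smul, Pi.smul_apply, mul_smul_comm]

lemma kd_apply {N : ℕ} (ψ : Fin N → MvPolynomial σ k) (f : Finset (Fin N) → MvPolynomial σ k)
    (I : Finset (Fin N)) : kd ψ f I = ∑ i, ψ i * aJ k i f I := rfl

section

variable {N N' : ℕ} (ι : Fin N' → Fin N)

/-- the active letters -/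
def act (I : Finset (Fin N)) : Finset (Fin N') := Finset.univ.filter fun i => ι i ∈ I

/-- the spectators -/
def pas (I : Finset (Fin N)) : Finset (Fin N) := I.filter fun i => ∀ j, ι j ≠ i

lemma mem_act {I : Finset (Fin N)} {i : Fin N'} : i ∈ act ι I ↔ ι i ∈ I := by
  unfold act
  simp

lemma mem_pas {I : Finset (Fin N)} {i : Fin N} : i ∈ pas ι I ↔ i ∈ I ∧ ∀ j, ι j ≠ i := by
  unfold pas
  simp

lemma pas_free (I : Finset (Fin N)) (j : Fin N') : ι j ∉ pas ι I := by
  rw [mem_pas]
  exact fun h => h.2 j rfl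

lemma img_act (I : Finset (Fin N)) : (act ι I).image ι ∪ pas ι I = I := by
  ext i
  rw [Finset.mem_union, Finset.mem_image, mem_pas]
  constructor
  · rintro (⟨j, hj, rfl⟩ | h)
    · exact (mem_act ι).mp hj
    · exact h.1
  · intro hi
    by_cases h : ∃ j, ι j = i
    · obtain ⟨j, rfl⟩ := h
      exact Or.inl ⟨j, (mem_act ι).mpr hi, rfl⟩
    · push Not at h
      exact Or.inr ⟨hi, h⟩

lemma act_img (hι : Function.Injective ι) {A : Finset (Fin N)} (hA : ∀ j, ι j ∉ A)
    (I : Finset (Fin N')) : act ι (I.image ι ∪ A) = I := by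
  ext j
  rw [mem_act, Finset.mem_union, Finset.mem_image]
  constructor
  · rintro (⟨i, hi, h⟩ | h)
    · rwa [← hι h]
    · exact absurd h (hA j)
  · intro h
    exact Or.inl ⟨j, h, rfl⟩

lemma pas_img {A : Finset (Fin N)} (hA : ∀ j, ι j ∉ A)
    (I : Finset (Fin N')) : pas ι (I.image ι ∪ A) = A := by
  ext i
  rw [mem_pas, Finset.mem_union, Finset.mem_image]
  constructor
  · rintro ⟨⟨j, _, rfl⟩ | h, h'⟩
    · exact absurd rfl (h' j)
    · exact h
  · intro h
    exact ⟨Or.inr h, fun j hj => hA j (by rw [hj]; exact h)⟩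

lemma sgn_img (hι : StrictMono ι) {A : Finset (Fin N)} (hA : ∀ j, ι j ∉ A) (I : Finset (Fin N'))
    (i : Fin N') : sgn k (I.image ι ∪ A) (ι i) = sgn k I i * sgn k A (ι i) := by
  classical
  unfold sgn
  rw [← pow_add]
  congr 1
  rw [Finset.filter_union, Finset.card_union_of_disjoint]
  · congr 1
    rw [Finset.filter_image, Finset.card_image_of_injective _ hι.injective]
    congr 1
    refine Finset.filter_congr fun c _ => ?_
    rw [hι.lt_iff_lt]
  · rw [Finset.disjoint_left]
    intro c hc hc'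
    obtain ⟨j, _, rfl⟩ := Finset.mem_image.mp (Finset.mem_filter.mp hc).1
    exact hA j (Finset.mem_filter.mp hc').1

/-- the sign of a slice -/
def ss (k : Type*) [Field k] {N N' : ℕ} (ι : Fin N' → Fin N) (I : Finset (Fin N'))
    (A : Finset (Fin N)) : k := ∏ i ∈ I, sgn k A (ι i)

lemma ss_sq (I : Finset (Fin N')) (A : Finset (Fin N)) : ss k ι I A * ss k ι I A = 1 := by
  unfold ss
  rw [← Finset.prod_mul_distrib]
  exact Finset.prod_eq_one fun i _ => sgn_sq _ _

lemma ss_insert {I : Finset (Fin N')} {i : Fin N'} (h : i ∉ I) (A : Finset (Fin N)) :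
    ss k ι (insert i I) A = sgn k A (ι i) * ss k ι I A := by
  unfold ss
  rw [Finset.prod_insert h]

/-- the slice with the spectators `A` -/
noncomputable def sl (A : Finset (Fin N)) :
    (Finset (Fin N) → MvPolynomial σ k) →ₗ[k] (Finset (Fin N') → MvPolynomial σ k) where
  toFun f := fun I => ss k ι I A • f (I.image ι ∪ A)
  map_add' f g := by
    funext I
    rw [Pi.add_apply, Pi.add_apply, smul_add]
  map_smul' t f := by
    funext I
    rw [RingHom.id_apply, Pi.smul_apply, Pi.smul_apply, smul_comm]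

lemma sl_apply (A : Finset (Fin N)) (f : Finset (Fin N) → MvPolynomial σ k)
    (I : Finset (Fin N')) : sl ι A f I = ss k ι I A • f (I.image ι ∪ A) := rfl

lemma sl_aJ (hι : StrictMono ι) {A : Finset (Fin N)} (hA : ∀ j, ι j ∉ A)
    (f : Finset (Fin N) → MvPolynomial σ k) (i : Fin N') :
    sl ι A (aJ k (ι i) f) = aJ k i (sl ι A f) := by
  classical
  funext I
  rw [sl_apply, aJ_apply, aJ_apply]
  by_cases h : i ∈ I
  · rw [if_pos h, if_pos (Finset.mem_union_left _ (Finset.mem_image_of_mem _ h)), smul_zero]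
  · have h1 : ι i ∉ I.image ι ∪ A := by
      rw [Finset.mem_union, not_or]
      refine ⟨fun h' => ?_, hA i⟩
      obtain ⟨j, hj, hji⟩ := Finset.mem_image.mp h'
      rw [← hι.injective hji] at h
      exact h hj
    rw [if_neg h, if_neg h1, sl_apply, sgn_img ι hι hA, ss_insert ι h, Finset.image_insert,
      Finset.insert_union, smul_smul, smul_smul]
    congr 1
    ring

lemma sl_kd (hι : StrictMono ι) {A : Finset (Fin N)} (hA : ∀ j, ι j ∉ A)
    (ψ : Fin N → MvPolynomial σ k) (hψ : ∀ i, (∀ j, ι j ≠ i) → ψ i = 0)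
    (f : Finset (Fin N) → MvPolynomial σ k) :
    sl ι A (kd ψ f) = kd (fun i => ψ (ι i)) (sl ι A f) := by
  classical
  funext I
  rw [sl_apply, kd_apply, kd_apply]
  have h1 : ∑ i, ψ (ι i) * aJ k (ι i) f (I.image ι ∪ A)
      = ∑ i, ψ i * aJ k i f (I.image ι ∪ A) := by
    refine Fintype.sum_of_injective ι hι.injective _ _ ?_ fun i => rfl
    intro i hi
    rw [hψ i fun j hj => hi ⟨j, hj⟩, zero_mul]
  rw [← h1, Finset.smul_sum]
  refine Finset.sum_congr rfl fun i _ => ?_
  rw [← sl_aJ ι hι hA f i, sl_apply, mul_smul_comm]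

/-- assembling the slices -/
noncomputable def asm (w : Finset (Fin N) → Finset (Fin N') → MvPolynomial σ k) :
    Finset (Fin N) → MvPolynomial σ k :=
  fun I => ss k ι (act ι I) (pas ι I) • w (pas ι I) (act ι I)

lemma sl_asm (hι : Function.Injective ι) {A : Finset (Fin N)} (hA : ∀ j, ι j ∉ A)
    (w : Finset (Fin N) → Finset (Fin N') → MvPolynomial σ k) :
    sl ι A (asm ι w) = w A := by
  funext I
  rw [sl_apply, asm, act_img ι hι hA, pas_img ι hA, smul_smul, ss_sq, one_smul]

lemma ext_sl {f g : Finset (Fin N) → MvPolynomial σ k}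
    (h : ∀ A : Finset (Fin N), (∀ j, ι j ∉ A) → sl ι A f = sl ι A g) : f = g := by
  funext I
  have h1 := congrFun (h (pas ι I) (pas_free ι I)) (act ι I)
  rw [sl_apply, sl_apply, img_act] at h1
  have h2 := congrArg (fun z => ss k ι (act ι I) (pas ι I) • z) h1
  simp only [smul_smul, ss_sq, one_smul] at h2
  exact h2

/-- **exactness with spectators**; the exterior degree `b A` of the active part may depend on the
set `A` of spectators -/
theorem spec (hι : StrictMono ι) (ψ : Fin N → MvPolynomial σ k)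
    (hψ : ∀ i, (∀ j, ι j ≠ i) → ψ i = 0) (b : Finset (Fin N) → ℕ) {m m' : ℕ}
    (P : Finset (Fin N) → Prop)
    (hex : ∀ A, P A → ∀ g : Finset (Fin N') → MvPolynomial σ k,
      (∀ I, (g I).IsHomogeneous m ∧ (I.card ≠ b A → g I = 0)) → kd (fun i => ψ (ι i)) g = 0 →
      ∃ w : Finset (Fin N') → MvPolynomial σ k,
        (∀ I, (w I).IsHomogeneous m' ∧ (I.card ≠ b A + 1 → w I = 0)) ∧
        kd (fun i => ψ (ι i)) w = g)
    (f : Finset (Fin N) → MvPolynomial σ k)
    (hf : ∀ I, (f I).IsHomogeneous m ∧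
      (¬ ((act ι I).card = b (pas ι I) ∧ P (pas ι I)) → f I = 0))
    (hz : kd ψ f = 0) :
    ∃ w : Finset (Fin N) → MvPolynomial σ k,
      (∀ I, (w I).IsHomogeneous m' ∧
        (¬ ((act ι I).card = b (pas ι I) + 1 ∧ P (pas ι I)) → w I = 0)) ∧
      kd ψ w = f := by
  classical
  have hinj := hι.injective
  have key : ∀ A : Finset (Fin N), ∃ w : Finset (Fin N') → MvPolynomial σ k,
      (∀ I, (w I).IsHomogeneous m' ∧ (¬ (I.card = b A + 1 ∧ P A) → w I = 0)) ∧
      ((∀ j, ι j ∉ A) → kd (fun i => ψ (ι i)) w = sl ι A f) := by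
    intro A
    by_cases hA : ∀ j, ι j ∉ A
    · by_cases hP : P A
      · have h1 : ∀ I, (sl ι A f I).IsHomogeneous m ∧ (I.card ≠ b A → sl ι A f I = 0) := by
          intro I
          constructor
          · rw [sl_apply, smul_eq_C_mul]
            exact (hf _).1.C_mul _
          · intro hI
            rw [sl_apply, (hf _).2, smul_zero]
            rw [act_img ι hinj hA, pas_img ι hA]
            exact fun h => hI h.1
        have h2 : kd (fun i => ψ (ι i)) (sl ι A f) = 0 := by
          rw [← sl_kd ι hι hA ψ hψ, hz, map_zero]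
        obtain ⟨w, hw, hwd⟩ := hex A hP _ h1 h2
        refine ⟨w, fun I => ⟨(hw I).1, fun hI => (hw I).2 fun h => hI ⟨h, hP⟩⟩, fun _ => hwd⟩
      · refine ⟨0, fun I => ⟨isHomogeneous_zero _ _ _, fun _ => rfl⟩, fun _ => ?_⟩
        rw [map_zero]
        funext I
        rw [sl_apply, (hf _).2, smul_zero]
        · rfl
        · rw [pas_img ι hA]
          exact fun h => hP h.2
    · exact ⟨0, fun I => ⟨isHomogeneous_zero _ _ _, fun _ => rfl⟩, fun h => absurd h hA⟩
  choose w hw hwd using key
  refine ⟨asm ι w, ?_, ?_⟩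
  · intro I
    constructor
    · rw [asm, smul_eq_C_mul]
      exact ((hw _ _).1).C_mul _
    · intro hI
      rw [asm, (hw _ _).2 hI, smul_zero]
  · refine ext_sl ι fun A hA => ?_
    rw [sl_kd ι hι hA ψ hψ, sl_asm ι hinj hA, hwd A hA]

end

end Pool.Agent.H34.OPM
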